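import Pool.Agent.helper29.JZ.Spec

/-!
# Project jz (MP_3221a1_ag), row RZ1
-/

set_option autoImplicit false

open Finset Polynomial Module

namespace Pool.Agent.helper83.JZ

open Pool.Agent.helper29.JZ

theorem RZ1_eval {P Q : ℂ[X]} (h : IsCoprime P Q) (c : ℂ) : P.eval c ≠ 0 ∨ Q.eval c ≠ 0 := by
  by_contra hcon
  rw [not_or, not_not, not_not] at hcon
  obtain ⟨A, B, hAB⟩ := h
  have h1 := congrArg (Polynomial.eval c) hAB
  rw [eval_add, eval_mul, eval_mul, hcon.1, hcon.2, mul_zero, mul_zero, add_zero, eval_one] at h1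
  exact zero_ne_one h1

theorem RZ1_top {P Q : ℂ[X]} (h : 1 ≤ max P.natDegree Q.natDegree) :
    P.coeff (max P.natDegree Q.natDegree) ≠ 0 ∨ Q.coeff (max P.natDegree Q.natDegree) ≠ 0 := by
  rcases le_total Q.natDegree P.natDegree with h1 | h1
  · left
    rw [max_eq_left h1] at h ⊢
    intro h2
    have h3 : P = 0 := leadingCoeff_eq_zero.1 h2
    rw [h3, natDegree_zero] at h
    omega
  · right
    rw [max_eq_right h1] at h ⊢
    intro h2
    have h3 : Q = 0 := leadingCoeff_eq_zero.1 h2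
    rw [h3, natDegree_zero] at h
    omega

theorem jz_RZ1 : RZ1_stmt := by
  intro hHME P Q P' Q' hPQ hPQ' hRR he
  obtain ⟨h1, _, h3, _, h5⟩ := hHME
  set e : ℕ := max P.natDegree Q.natDegree with hedef
  set n : ℕ := max P'.natDegree Q'.natDegree with hndef
  set F : ℂ[X] := hm n P' P Q with hF
  set G : ℂ[X] := hm n Q' P Q with hG
  have hGF : G = X * F := by
    have : X * F - G = 0 := hRR
    exact (sub_eq_zero.1 this).symm
  have hnoroot : ∀ c : ℂ, F.eval c ≠ 0 := by
    intro c hc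
    have hGc : G.eval c = 0 := by
      rw [hGF, eval_mul, hc, mul_zero]
    rw [hF, h1] at hc
    rw [hG, h1] at hGc
    rcases h5 P' Q' (P.eval c) (Q.eval c) hPQ' (RZ1_eval hPQ c) with h6 | h6
    · exact h6 hc
    · exact h6 hGc
  have hdeg : F.degree = 0 := by
    by_contra hcon
    obtain ⟨c, hc⟩ := IsAlgClosed.exists_root F hcon
    exact hnoroot c hc
  have hFC : F = C (F.coeff 0) := eq_C_of_degree_eq_zero hdeg
  have hF0 : F.coeff 0 ≠ 0 := by
    intro h
    rw [h, C_0] at hFC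
    rw [hFC, degree_zero] at hdeg
    exact absurd hdeg (by simp)
  have hFco : ∀ m : ℕ, 1 ≤ m → F.coeff m = 0 := by
    intro m hm'
    rw [hFC, coeff_C, if_neg (by omega)]
  have hGco : ∀ m : ℕ, 2 ≤ m → G.coeff m = 0 := by
    intro m hm'
    obtain ⟨k, rfl⟩ : ∃ k, m = k + 1 := ⟨m - 1, by omega⟩
    rw [hGF, coeff_X_mul]
    exact hFco k (by omega)
  have hne : n * e ≤ 1 := by
    by_contra hcon
    have hne2 : 2 ≤ n * e := by omega
    have hPe : P.natDegree ≤ e := le_max_left _ _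
    have hQe : Q.natDegree ≤ e := le_max_right _ _
    have a1 := h3 n e P' P Q hPe hQe
    have a2 := h3 n e Q' P Q hPe hQe
    rw [← hF, hFco _ (by omega)] at a1
    rw [← hG, hGco _ hne2] at a2
    rcases h5 P' Q' (P.coeff e) (Q.coeff e) hPQ' (RZ1_top he) with h6 | h6
    · exact h6 a1.symm
    · exact h6 a2.symm
  have hn0 : n ≠ 0 := by
    intro hn
    have hG1 : G.coeff 1 = F.coeff 0 := by
      rw [hGF, coeff_X_mul]
    have hG0 : G = C (Q'.coeff 0) := by
      rw [hG, hn]
      unfold hm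
      simp
    rw [hG0, coeff_C, if_neg one_ne_zero] at hG1
    exact hF0 hG1.symm
  have hn1 : 1 ≤ n := Nat.one_le_iff_ne_zero.2 hn0
  have b1 : e ≤ n * e := Nat.le_mul_of_pos_left e hn1
  have b2 : n ≤ n * e := Nat.le_mul_of_pos_right n he
  constructor <;> omega

end Pool.Agent.helper83.JZ
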